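import Mathlib
import Pool.Agent.H.MP_6bd6f6_an.A

namespace Pool.Agent.Results.MP_6bd6f6_an.NotSensitive

open Filter Topology Set Function Pool.Agent.H.MP_6bd6f6_an
open scoped ENNReal

/-- topological transitivity -/
def Trans {Y : Type} [TopologicalSpace Y] (T : Y → Y) : Prop :=
  ∀ U V : Set Y, IsOpen U → IsOpen V → U.Nonempty → V.Nonempty → ∃ n : ℕ, (U ∩ T^[n] ⁻¹' V).Nonempty

/-- minimal sets -/
def MinSet {Y : Type} [TopologicalSpace Y] (T : Y → Y) (M : Set Y) : Prop :=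
  M.Nonempty ∧ IsClosed M ∧ MapsTo T M M ∧
    ∀ M' ⊆ M, M'.Nonempty → IsClosed M' → MapsTo T M' M' → M' = M

/-- Li-Yorke sensitivity -/
def LYSens {Y : Type} [MetricSpace Y] (T : Y → Y) : Prop :=
  ∃ δ : ℝ, 0 < δ ∧ ∀ x : Y, ∀ U ∈ 𝓝 x, ∃ y ∈ U,
    liminf (fun n => edist (T^[n] x) (T^[n] y)) atTop = 0 ∧
    ENNReal.ofReal δ < limsup (fun n => edist (T^[n] x) (T^[n] y)) atTop

noncomputable def pt {W : ℤ → Bool} {e : ℕ} (h : ∀ (z : ℤ_[2]) (t : ℤ), D e (z - t) →
    ∀ n m, R z n m → W (n + t) = true → W (m + t) = true) (t : ℤ) : X :=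
  ⟨(t, fun n => W (n + t)), h t t (by simp [D])⟩

lemma minset {W : ℤ → Bool} {e : ℕ} (hW : ∀ u d, W (u + 2 ^ e * d) = W u)
    (h : ∀ (z : ℤ_[2]) (t : ℤ), D e (z - t) → ∀ n m, R z n m → W (n + t) = true → W (m + t) = true)
    (a : ℤ) : ∃ M, MinSet (S 1) M ∧ pt h a ∈ M := by
  let M : Set X := {q | ∀ t : ℤ, D e (q.1.1 - t) → ∀ n, q.1.2 n = W (n + t)}
  have ha : pt h a ∈ M := fun t ht n => by
    obtain ⟨d, hd⟩ := D_int.1 (show D e ((a - t : ℤ) : ℤ_[2]) by simpa [pt] using ht)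
    show W (n + a) = _
    rw [← hW (n + t) d, ← hd]; congr 1; ring
  refine ⟨M, ⟨⟨_, ha⟩, ?_, fun q hq t ht n => ?_, fun M' hM ⟨q, hq⟩ hc hm => hM.antisymm ?_⟩, ha⟩
  · simp only [M]
    rw [ofPred_forall]
    refine isClosed_iInter fun t => isClosed_imp
      ((D_clopen e).isOpen.preimage (cz.sub continuous_const)) ?_
    rw [ofPred_forall]
    exact isClosed_iInter fun n => isClosed_eq (cw n) continuous_const
  · have := hq (t - 1) (by convert ht using 1; simp [S]; ring) (n + 1)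
    rw [show n + 1 + (t - 1) = n + t by ring] at this
    exact this
  · intro q' hq'
    rw [← hc.closure_eq, mem_closure_iff_nhds]
    intro U hU
    obtain ⟨k, hk, he⟩ := ((nb q' hU).and (eventually_ge_atTop e)).exists
    have h1 := D_appr (q'.1.1 - q.1.1) k
    refine ⟨_, ?_, hm.iterate ((q'.1.1 - q.1.1).appr k) hq⟩
    rw [S_iter]
    refine hk _ (by convert h1 using 1; simp [S]; ring) fun n _ => ?_
    have h2 := D_appr q.1.1 e
    have h3 := hM hq (q.1.1.appr e) (by simpa using h2) (n + (q'.1.1 - q.1.1).appr k)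
    have h4 := hq' ((q'.1.1 - q.1.1).appr k + q.1.1.appr e)
      ((h1.mono he).add h2 (by push_cast; ring)) n
    rw [h4, ← add_assoc, ← h3]
    rfl

lemma trans : Trans (S 1) := by
  rintro U V hU hV ⟨p, hp⟩ ⟨q, hq⟩
  obtain ⟨k, h1, h2⟩ := ((nb p (hU.mem_nhds hp)).and (nb q (hV.mem_nhds hq))).exists
  obtain ⟨W, e, a, N, -, -, h, a1, a2, a3⟩ := main p q k
  refine ⟨N, pt h a, h1 _ a1 fun n hn => (a3 n hn).1, ?_⟩
  rw [mem_preimage, S_iter]
  exact h2 _ (by simpa [S, pt] using a2) fun n hn => (a3 n hn).2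

lemma dense : Dense {x | ∃ M, MinSet (S 1) M ∧ x ∈ M} := by
  intro p
  rw [mem_closure_iff_nhds]
  intro U hU
  obtain ⟨k, h1⟩ := (nb p hU).exists
  obtain ⟨W, e, a, N, -, hW, h, a1, -, a3⟩ := main p p k
  exact ⟨pt h a, h1 _ a1 fun n hn => (a3 n hn).1, minset hW h a⟩

lemma noiso (p : X) : ¬ IsOpen {p} := by
  intro hp
  obtain ⟨k, h1⟩ := (nb p (hp.mem_nhds rfl)).exists
  obtain ⟨W, e, a, N, he, hW, h, a1, -, a3⟩ := main p p k
  have b1 : pt h a = p := h1 _ a1 fun n hn => (a3 n hn).1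
  have b2 : pt h (a + 2 ^ e * 1) = p := h1 _
    (a1.sub (y := 2 ^ e) (pow_dvd_pow _ he) (by simp [pt]; ring)) fun n hn => by
      rw [← (a3 n hn).1, ← hW (n + a) 1, add_assoc]; rfl
  have := congrArg (fun q : X => q.1.1) (b1.trans b2.symm)
  simp [pt] at this

noncomputable def cst (b : Bool) : X := ⟨(0, fun _ => b), fun _ _ _ h => h⟩

lemma nomin : ¬ MinSet (S 1) univ := by
  rintro ⟨-, -, -, h⟩
  have := h {q | ∀ n, q.1.2 n = true} (subset_univ _) ⟨cst true, fun _ => rfl⟩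
    (by rw [ofPred_forall]; exact isClosed_iInter fun n => isClosed_eq (cw n) continuous_const)
    fun q hq n => hq _
  exact absurd ((this ▸ mem_univ (cst false) : cst false ∈ {q : X | ∀ n, q.1.2 n = true}) 0)
    (by simp [cst])

theorem result : ∃ (Y : Type) (_ : MetricSpace Y) (_ : CompactSpace Y) (T : Y → Y),
    Nontrivial Y ∧ (∀ x : Y, ¬ IsOpen {x}) ∧ Continuous T ∧ Surjective T ∧
    Trans T ∧ Dense {x | ∃ M, MinSet T M ∧ x ∈ M} ∧ ¬ MinSet T univ ∧ ¬ LYSens T := by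
  letI := TopologicalSpace.metrizableSpaceMetric X
  refine ⟨X, this, inferInstance, S 1, ⟨cst true, cst false, fun h => ?_⟩, noiso, S_cont, S_surj,
    trans, dense, nomin, ?_⟩
  · simpa [cst] using congrArg (fun q : X => q.1.2 0) h
  rintro ⟨δ, -, h⟩
  obtain ⟨y, hy, h1, h2⟩ := h (cst true) {q | q.1.2 0 = true}
    (((isOpen_discrete {true}).preimage (cw 0)).mem_nhds rfl)
  have hz : y.1.1 = 0 := by
    by_contra hz
    obtain ⟨η, hη, H⟩ := Metric.uniformContinuous_iff.1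
      (CompactSpace.uniformContinuous_of_continuous cz) _ (norm_pos_iff.2 hz)
    obtain ⟨n, hn⟩ := (frequently_lt_of_liminf_lt (h := h1.trans_lt (ENNReal.ofReal_pos.2 hη))).exists
    have := H (edist_lt_ofReal.1 hn)
    simp [S_iter, S, cst] at this
  have : y = cst true := Subtype.ext (Prod.ext hz (funext fun m => y.2 0 m
    ⟨m.natAbs, by rw [sub_zero, ← Int.natCast_natAbs]; exact_mod_cast Nat.lt_two_pow_self,
      by simp [hz, D]⟩ hy))
  simp [this] at h2

end Pool.Agent.Results.MP_6bd6f6_an.NotSensitive
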